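import Pool.Agent.H19.KL.Stmts

set_option autoImplicit false

open MeasureTheory Set
open scoped ContDiff

namespace Pool.Agent.H19.KL

open Pool.Agent.H84 Pool.Agent.H84.Sym Pool.Agent.H84.Sym.P2x Pool.Agent.H84.Sym.C29

theorem st2_thm (E : Type) [NormedAddCommGroup E] [InnerProductSpace ℝ E]
    [FiniteDimensional ℝ E] [MeasurableSpace E] [BorelSpace E]
    (hGRO : GROStmt E) (hCON : CONStmt E) (hFUB : FUBStmt E) (hGAU : GAUStmt E)
    (hLIP : LIPStmt E) (hHES : HESStmt E) : ST2Stmt E := by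
  intro U t C hU hprob X hX hX0 hXpos Γ s₀ s hΓ hrev hs₀ hss
  have hs : 0 < s := hs₀.trans hss
  have hΓ0 : 0 ≤ Γ := by linarith
  have hM : ∀ σ : ℝ, 0 < σ → ∀ y, 0 < av U σ X y := fun σ hσ y =>
    av_pos' hU hσ hX hX0 hXpos y
  have hGC : ∀ σ : ℝ, 0 < σ → GC (av U σ X) := fun σ hσ => hGRO U σ (adm_of_pot hU hσ) X hX
  have hlip : ∀ σ : ℝ, 0 < σ → ∀ y z, |Real.log (av U σ X y) - Real.log (av U σ X z)| ≤
      Real.sqrt (Γ * σ) * ‖y - z‖ := fun σ hσ =>
    hLIP U t C σ hU hσ X hX hX0 (hM σ hσ) Γ hΓ0 (fun y => hrev σ y hσ)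
  have hcon : ∀ σ : ℝ, 0 < σ → ∀ (V : E → ℝ) (κ C' : ℝ), Pot V κ C' →
      GC (fun y => av U σ X y ^ 4) ∧ GC (fun y => (av U σ X y ^ 4)⁻¹) ∧
      (∫ y, av U σ X y ^ 4 ∂(mu V)) * (∫ y, (av U σ X y ^ 4)⁻¹ ∂(mu V)) ≤
        Real.exp (16 * Γ * σ / κ) * (mu V).real univ ^ 2 := by
    intro σ hσ V κ C' hV
    have h1 : ∀ y, Real.exp (4 * Real.log (av U σ X y)) = av U σ X y ^ 4 := by
      intro y
      rw [mul_comm, Real.exp_mul, Real.exp_log (hM σ hσ y)]
      norm_cast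
    have h2 : ∀ y, Real.exp (-(4 * Real.log (av U σ X y))) = (av U σ X y ^ 4)⁻¹ := by
      intro y
      rw [Real.exp_neg, h1]
    have h3 := hCON V κ C' hV (fun y => 4 * Real.log (av U σ X y)) (4 * Real.sqrt (Γ * σ))
      (continuous_const.mul ((hGC σ hσ).1.log fun y => (hM σ hσ y).ne')) (by positivity) (by
        intro x y
        rw [← mul_sub, abs_mul, abs_of_pos (by norm_num : (0 : ℝ) < 4), mul_assoc]
        exact mul_le_mul_of_nonneg_left (hlip σ hσ x y) (by norm_num))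
    simp only [h1, h2] at h3
    have h4 : (4 * Real.sqrt (Γ * σ)) ^ 2 = 16 * Γ * σ := by
      rw [mul_pow, Real.sq_sqrt (by positivity)]; ring
    rw [h4] at h3
    exact h3
  refine ⟨(hcon s hs U t C hU).2.1, ?_⟩
  -- the noise between the two precisions
  set τ : ℝ := s * s₀ / (s - s₀) with hτ
  have hd : 0 < s - s₀ := by linarith
  have hτ0 : 0 < τ := by positivity
  have hprec : s * τ / (s + τ) = s₀ := by
    rw [hτ]; field_simp; ring
  obtain ⟨⟨C₁, hW⟩, -, -⟩ := hHES U t C s hU hs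
  obtain ⟨⟨C₂, hW₀⟩, -, -⟩ := hHES U t C s₀ hU hs₀
  obtain ⟨hG1, hG2⟩ := hGAU U t C s τ hU hs hτ0
  rw [hprec] at hG1 hG2
  have hAdm : Adm (WW U s) τ := adm_of_pot hW hτ0
  set N : E → ℝ := fun y => (av U s X y ^ 4)⁻¹ with hN
  have hNGC : GC N := (hcon s hs U t C hU).2.1
  have hF := (hFUB (WW U s) (t * s / (t + s)) C₁ τ hW hτ0 N hNGC).1
  rw [hG1] at hF
  rw [← hF, ← integral_const_mul]
  have hint1 : Integrable (av (WW U s) τ N) (mu (WW U s₀)) :=
    (hGRO (WW U s) τ hAdm N hNGC).integrable hW₀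
  have hint2 : Integrable (fun z => (av U s₀ X z ^ 4)⁻¹) (mu (WW U s₀)) :=
    (hcon s₀ hs₀ U t C hU).2.1.integrable hW₀
  refine integral_mono hint1 (hint2.const_mul _) fun z => ?_
  -- pointwise estimate
  have hpz := (pot_add_quad hW hτ0.le z).1
  have hnpz := np_pot hpz
  have := prob_np hAdm z
  have h5 := (hcon s hs (np (WW U s) τ z) _ _ hnpz).2.2
  have hM4 := (hcon s hs U t C hU).1
  rw [int_np hAdm, int_np hAdm] at h5
  have h6 : (mu (np (WW U s) τ z)).real univ = 1 := by simp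
  rw [h6, one_pow, mul_one] at h5
  have hκ : 16 * Γ * s / (t * s / (t + s) + τ) ≤ 16 * Γ * s / s₀ := by
    have : s₀ ≤ t * s / (t + s) + τ := by
      have h7 : s₀ ≤ τ := by
        rw [hτ, le_div_iff₀ hd]
        nlinarith
      have h8 : 0 ≤ t * s / (t + s) := by have := hU.pos; positivity
      linarith
    exact div_le_div_of_nonneg_left (by positivity) hs₀ this
  have h9 : av U s₀ X z ^ 4 ≤ av (WW U s) τ (fun y => av U s X y ^ 4) z := by
    have hj := (convexOn_pow 4 : ConvexOn ℝ (Ici (0 : ℝ)) fun x => x ^ 4).map_integral_le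
      (μ := mu (np (WW U s) τ z)) (f := av U s X) (by fun_prop) isClosed_Ici
      (Filter.Eventually.of_forall fun y => (hM s hs y).le)
      ((hGC s hs).integrable hnpz) (hM4.integrable hnpz)
    rw [int_np hAdm, hG2 X hX z] at hj
    have h10 : ∫ y, (av U s X y) ^ 4 ∂(mu (np (WW U s) τ z)) =
        av (WW U s) τ (fun y => av U s X y ^ 4) z := int_np hAdm _ _
    rw [h10] at hj
    exact hj
  have hpos : 0 < av U s₀ X z ^ 4 := pow_pos (hM s₀ hs₀ z) 4
  have hN0 : 0 ≤ av (WW U s) τ N z := av_nonneg hAdm (fun y => by rw [hN]; positivity) z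
  have h11 : av U s₀ X z ^ 4 * av (WW U s) τ N z ≤ Real.exp (16 * Γ * s / s₀) :=
    (mul_le_mul_of_nonneg_right h9 hN0).trans (h5.trans (Real.exp_le_exp.mpr hκ))
  show av (WW U s) τ N z ≤ Real.exp (16 * Γ * s / s₀) * (av U s₀ X z ^ 4)⁻¹
  rw [← div_eq_mul_inv, le_div_iff₀ hpos, mul_comm]
  exact h11

end Pool.Agent.H19.KL
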