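import Pool.Agent.H19.KL.Stmts2

/-!
# Project KL, module BD2: from smooth potentials to a body
-/

set_option autoImplicit false

open MeasureTheory Set Filter Topology
open scoped ContDiff

namespace Pool.Agent.H19.KL

open Pool.Agent.H84 Pool.Agent.H84.Sym Pool.Agent.H84.Sym.P2x Pool.Agent.H84.Sym.C29
open Pool.Agent.H73.Lp

section aux

variable {E : Type} [NormedAddCommGroup E] [InnerProductSpace ℝ E]
    [FiniteDimensional ℝ E] [MeasurableSpace E] [BorelSpace E]

/-- A `C^1` function with compact support which agrees with `f` near the closed ball. -/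
private theorem bd2_exists_cut {f : E → ℝ} (hf : ContDiff ℝ 1 f) (R : ℝ) :
    ∃ f' : E → ℝ, ContDiff ℝ 1 f' ∧ HasCompactSupport f' ∧
      ∀ x ∈ Metric.closedBall (0 : E) R, f' x = f x ∧ fderiv ℝ f' x = fderiv ℝ f x := by
  set r : ℝ := |R| + 1 with hr
  have hr0 : 0 < r := by positivity
  let χ : ContDiffBump (0 : E) := ⟨r, r + 1, hr0, by linarith⟩
  refine ⟨fun x => χ x * f x, (χ.contDiff (n := 1)).mul hf, χ.hasCompactSupport.mul_right, ?_⟩
  intro x hx
  have hx' : x ∈ Metric.ball (0 : E) r := by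
    rw [Metric.mem_closedBall, dist_zero_right] at hx
    rw [Metric.mem_ball, dist_zero_right]
    have := le_abs_self R
    linarith
  have hev : (fun y => χ y * f y) =ᶠ[𝓝 x] f := by
    filter_upwards [Metric.isOpen_ball.mem_nhds hx'] with y hy
    have : χ y = 1 := χ.one_of_mem_closedBall (Metric.ball_subset_closedBall hy)
    rw [this, one_mul]
  exact ⟨hev.eq_of_nhds, hev.fderiv_eq⟩

private theorem bd2_growth_of_cpt {F : E → ℝ} (hF : Continuous F) (hc : HasCompactSupport F) :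
    ∃ A B : ℝ, ∀ x, |F x| ≤ A * Real.exp (B * ‖x‖) := by
  obtain ⟨M, hM⟩ := hF.bounded_above_of_compact_support hc
  refine ⟨M, 0, fun x => ?_⟩
  rw [zero_mul, Real.exp_zero, mul_one]
  exact hM x

omit [MeasurableSpace E] [BorelSpace E] in
private theorem bd2_pot_add {P W : E → ℝ} {t C D : ℝ} (hP : Pot P t C) (hW : ContDiff ℝ 2 W)
    (hW2 : ∀ x w, 0 ≤ fderiv ℝ (fderiv ℝ W) x w w) (hD : ∀ x, ‖fderiv ℝ W x‖ ≤ D * (1 + ‖x‖))
    (b : ℝ) :
    Pot (fun x => P x + W x + b) t (C + D) ∧ ∀ x w,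
      fderiv ℝ (fderiv ℝ (fun x => P x + W x + b)) x w w =
        fderiv ℝ (fderiv ℝ P) x w w + fderiv ℝ (fderiv ℝ W) x w w := by
  have hPd : Differentiable ℝ P := hP.smooth.differentiable (by norm_num)
  have hWd : Differentiable ℝ W := hW.differentiable (by norm_num)
  have hPd2 : Differentiable ℝ (fderiv ℝ P) :=
    (hP.smooth.fderiv_right (m := 1) (by norm_num)).differentiable one_ne_zero
  have hWd2 : Differentiable ℝ (fderiv ℝ W) :=
    (hW.fderiv_right (m := 1) (by norm_num)).differentiable one_ne_zero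
  have e1 : fderiv ℝ (fun x => P x + W x + b) = fun x => fderiv ℝ P x + fderiv ℝ W x := by
    ext x : 1
    rw [fderiv_add_const]
    exact fderiv_fun_add (hPd x) (hWd x)
  have e2 : ∀ x w, fderiv ℝ (fderiv ℝ (fun x => P x + W x + b)) x w w =
        fderiv ℝ (fderiv ℝ P) x w w + fderiv ℝ (fderiv ℝ W) x w w := by
    intro x w
    rw [e1, fderiv_fun_add (hPd2 x) (hWd2 x)]
    rfl
  refine ⟨⟨(hP.smooth.add hW).add contDiff_const, hP.pos, ?_, ?_⟩, e2⟩
  · intro x w
    rw [e2]
    have h1 := hP.hess x w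
    have h2 := hW2 x w
    linarith
  · intro x
    rw [e1]
    have h1 := hP.grad x
    have h2 := hD x
    calc ‖fderiv ℝ P x + fderiv ℝ W x‖ ≤ ‖fderiv ℝ P x‖ + ‖fderiv ℝ W x‖ := norm_add_le _ _
      _ ≤ C * (1 + ‖x‖) + D * (1 + ‖x‖) := add_le_add h1 h2
      _ = (C + D) * (1 + ‖x‖) := by ring

end aux

theorem bd2_thm (E : Type) [NormedAddCommGroup E] [InnerProductSpace ℝ E]
    [FiniteDimensional ℝ E] [MeasurableSpace E] [BorelSpace E]
    (hNGP : NGPStmt E) : BD2Stmt E := by
  intro ι _ v K R W c Dd X β Γ B m hnt hK hW hW0 hWM hWg hc hc0 hH hβ0 htight hDgc hD1 hXgc hX0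
    hlow hΓ hrev hB hDsq hm hXm
  set L : ℝ := max (K1 Γ B) (4 * K2 Γ B m) with hLdef
  have hL : 0 < L := lt_max_of_lt_left (by unfold K1; positivity)
  obtain ⟨Dw, hD⟩ := hWg
  have hW2 : ∀ x w, 0 ≤ fderiv ℝ (fderiv ℝ W) x w w := fun x w =>
    (Finset.sum_nonneg fun j _ => mul_nonneg (hc0 j x).le (sq_nonneg _)).trans (hH x w)
  have hWc : Continuous W := hW.continuous
  have hm0 : ∀ m : ℕ, (0:ℝ) < 1 / ((m:ℝ) + 1) := fun m => by positivity
  have hV0 : 0 < volume.real K := ENNReal.toReal_pos hK.vol0 hK.lt_top.ne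
  set V := volume.real K with hV
  set G : ℕ → E → ℝ := fun j => PU K (1 / ((j:ℝ) + 1)) (1 / ((j:ℝ) + 1)) with hG
  have hGPot : ∀ j, ∃ C : ℝ, Pot (G j) (1 / ((j:ℝ) + 1)) C := fun j => PU_pot hK (hm0 j) (hm0 j)
  have hGc : ∀ j, Continuous (G j) := fun j => by
    obtain ⟨C, hC⟩ := hGPot j
    exact hC.smooth.continuous
  set P : ℕ → E → ℝ := fun j x => G j x + W x with hP
  have hPc : ∀ j, Continuous (P j) := fun j => (hGc j).add hWc
  have hPpot : ∀ j, ∃ C : ℝ, Pot (P j) (1 / ((j:ℝ) + 1)) C := by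
    intro j
    obtain ⟨C, hC⟩ := hGPot j
    have h := (bd2_pot_add hC hW hW2 hD 0).1
    refine ⟨C + Dw, ?_⟩
    simpa [hP] using h
  have hfin : ∀ j, IsFiniteMeasure (mu (P j)) := fun j => by
    obtain ⟨C, hC⟩ := hPpot j
    exact isFinite_mu hC
  set N : ℕ → ℝ := fun j => (mu (P j)).real univ with hN
  have hN0 : ∀ j, 0 < N j := fun j => mu_univ_pos (hPc j) (hfin j)
  have hNint : ∀ j, N j = ∫ x, Real.exp (-P j x) := by
    intro j
    have h1 := integral_mu (hPc j) (fun _ => (1:ℝ))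
    simp only [one_mul] at h1
    rw [← h1]
    simp [hN]
  set U : ℕ → E → ℝ := fun j x => G j x + W x + Real.log (N j) with hU
  have hUc : ∀ j, Continuous (U j) := fun j => (hPc j).add continuous_const
  have hexp : ∀ j x, Real.exp (-U j x) = (N j)⁻¹ * Real.exp (-P j x) := by
    intro j x
    simp only [hU, hP]
    rw [neg_add, Real.exp_add, Real.exp_neg (Real.log (N j)), Real.exp_log (hN0 j)]
    ring
  have hmu : ∀ j (F : E → ℝ), ∫ x, F x ∂(mu (U j)) =
      (N j)⁻¹ * ∫ x, (F x * Real.exp (-W x)) * Real.exp (-G j x) := by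
    intro j F
    rw [integral_mu (hUc j), ← integral_const_mul]
    congr 1
    ext x
    rw [hexp]
    simp only [hP]
    rw [neg_add, Real.exp_add]
    ring
  have hUpot : ∀ j, ∃ C : ℝ, Pot (U j) (1 / ((j:ℝ) + 1)) C := by
    intro j
    obtain ⟨C, hC⟩ := hGPot j
    exact ⟨C + Dw, (bd2_pot_add hC hW hW2 hD (Real.log (N j))).1⟩
  have hUH : ∀ j x w, ∑ i, c i x * (inner ℝ (v i) w) ^ 2 ≤ fderiv ℝ (fderiv ℝ (U j)) x w w := by
    intro j x w
    obtain ⟨C, hC⟩ := hGPot j
    have h := (bd2_pot_add hC hW hW2 hD (Real.log (N j))).2 x w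
    have h2 := hC.hess x w
    have h3 : 0 ≤ 1 / ((j:ℝ) + 1) * ‖w‖ ^ 2 := by positivity
    have h4 := hH x w
    change _ ≤ fderiv ℝ (fderiv ℝ (fun x => G j x + W x + Real.log (N j))) x w w
    rw [h]
    linarith
  have hprob : ∀ j, IsProbabilityMeasure (mu (U j)) := by
    intro j
    obtain ⟨C, hC⟩ := hUpot j
    have := isFinite_mu hC
    have h1 : (mu (U j)).real univ = 1 := by
      have h2 := hmu j (fun _ => 1)
      have h3 : (fun x => (1 * Real.exp (-W x)) * Real.exp (-G j x)) =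
          fun x => Real.exp (-P j x) := by
        ext x
        simp only [hP]
        rw [neg_add, Real.exp_add]
        ring
      rw [h3, ← hNint, inv_mul_cancel₀ (hN0 j).ne'] at h2
      simpa using h2
    constructor
    have h3 : (mu (U j)) univ ≠ ⊤ := measure_ne_top _ _
    rw [Measure.real] at h1
    rw [← ENNReal.ofReal_toReal h3, h1, ENNReal.ofReal_one]
  -- the weight
  set Z := ∫ x in K, Real.exp (-W x) with hZ
  have hint : ∀ F : E → ℝ, Continuous F → IntegrableOn F K := by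
    intro F hF
    exact ((hF.continuousOn (s := Metric.closedBall (0:E) R)).integrableOn_compact
      (isCompact_closedBall (0:E) R)).mono_set hK.sub
  have hexpW : Continuous fun x => Real.exp (-W x) := Real.continuous_exp.comp hWc.neg
  have hZge : Real.exp (-2) * V ≤ Z := by
    have h1 : ∫ _ in K, Real.exp (-2) = Real.exp (-2) * V := by
      rw [setIntegral_const, smul_eq_mul, mul_comm]
    rw [← h1, hZ]
    apply setIntegral_mono_on (hint _ continuous_const) (hint _ hexpW) hK.meas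
    intro x hx
    apply Real.exp_le_exp.2
    have := hWM x hx
    linarith
  have hZ0 : 0 < Z := lt_of_lt_of_le (mul_pos (Real.exp_pos _) hV0) hZge
  have hexp1 : ∀ x, Real.exp (-W x) ≤ 1 := fun x => Real.exp_le_one_iff.2 (by linarith [hW0 x])
  have hlim : ∀ F : E → ℝ, Continuous F → (∃ A B : ℝ, ∀ x, |F x| ≤ A * Real.exp (B * ‖x‖)) →
      Tendsto (fun j => ∫ x, F x ∂(mu (U j))) atTop
        (𝓝 ((∫ x in K, F x * Real.exp (-W x)) / Z)) := by
    intro F hF hb
    obtain ⟨A, B, hb⟩ := hb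
    have h1 := PU_tendsto hK (F := fun x => F x * Real.exp (-W x)) (hF.mul hexpW) (A := A) (B := B)
      (fun x => by
        rw [abs_mul, abs_of_pos (Real.exp_pos (-W x))]
        calc |F x| * Real.exp (-W x) ≤ |F x| * 1 :=
              mul_le_mul_of_nonneg_left (hexp1 x) (abs_nonneg _)
          _ ≤ _ := by rw [mul_one]; exact hb x)
    have h2 := PU_tendsto hK (F := fun x => Real.exp (-W x)) hexpW (A := 1) (B := 0)
      (fun x => by
        rw [abs_of_pos (Real.exp_pos (-W x))]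
        simpa using hexp1 x)
    refine (h1.div h2 hZ0.ne').congr fun j => ?_
    rw [hmu j, hNint j]
    have h4 : (cE E (1 / ((j:ℝ) + 1)))⁻¹ ≠ 0 := (inv_pos.2 (cE_pos (hm0 j))).ne'
    have h5 : (fun x => Real.exp (-W x) * Real.exp (-PU K (1 / ((j:ℝ) + 1)) (1 / ((j:ℝ) + 1)) x)) =
        fun x => Real.exp (-P j x) := by
      ext x
      simp only [hP, hG]
      rw [neg_add, Real.exp_add]
      ring
    simp only [Pi.div_apply]
    rw [h5, mul_div_mul_left _ _ h4, div_eq_inv_mul]
  -- the data of the main estimate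
  have hZle : Z ≤ V := by
    have h1 : ∫ _ in K, (1 : ℝ) = V := by
      rw [setIntegral_const, smul_eq_mul, mul_one]
    rw [← h1, hZ]
    exact setIntegral_mono_on (hint _ hexpW) (hint _ continuous_const) hK.meas
      fun x _ => hexp1 x
  have hev1 : ∀ᶠ j in atTop, ∀ i, ∫ x, Dd i x ^ 2 ∂(mu (U j)) ≤ B ^ 2 := by
    rw [eventually_all]
    intro i
    have hg := (hDgc i).sq
    have hl := hlim _ hg.1 hg.2
    have h2 : (∫ x in K, Dd i x ^ 2 * Real.exp (-W x)) / Z < B ^ 2 := by
      rw [div_lt_iff₀ hZ0]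
      have h3 : ∫ x in K, Dd i x ^ 2 * Real.exp (-W x) ≤ ∫ x in K, Dd i x ^ 2 := by
        apply setIntegral_mono_on (hint _ (hg.1.mul hexpW)) (hint _ hg.1) hK.meas
        intro x _
        exact mul_le_of_le_one_right (sq_nonneg _) (hexp1 x)
      have h6 : ∫ x in K, Dd i x ^ 2 < B ^ 2 * (Real.exp (-2) * V) := by
        have h5 := hDsq i
        have h7 : Real.exp (-2) * (Real.exp 2 * ∫ x in K, Dd i x ^ 2) <
            Real.exp (-2) * (B ^ 2 * V) := mul_lt_mul_of_pos_left h5 (Real.exp_pos _)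
        rw [← mul_assoc, ← Real.exp_add] at h7
        norm_num at h7
        linarith [h7]
      have h8 : B ^ 2 * (Real.exp (-2) * V) ≤ B ^ 2 * Z :=
        mul_le_mul_of_nonneg_left hZge (sq_nonneg _)
      linarith
    have h5 := hl.eventually_lt_const h2
    filter_upwards [h5] with j hj using hj.le
  have hev2 : ∀ᶠ j in atTop, ∀ i, m ≤ ∫ x, X i x ∂(mu (U j)) := by
    rw [eventually_all]
    intro i
    have hl := hlim _ (hXgc i).1 (hXgc i).2
    have h2 : m < (∫ x in K, X i x * Real.exp (-W x)) / Z := by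
      rw [lt_div_iff₀ hZ0]
      have h3 : Real.exp (-2) * ∫ x in K, X i x ≤ ∫ x in K, X i x * Real.exp (-W x) := by
        rw [← integral_const_mul]
        apply setIntegral_mono_on ((hint _ (hXgc i).1).const_mul _)
          (hint _ ((hXgc i).1.mul hexpW)) hK.meas
        intro x hx
        have h4 : Real.exp (-2) ≤ Real.exp (-W x) := by
          apply Real.exp_le_exp.2
          have := hWM x hx
          linarith
        calc Real.exp (-2) * X i x ≤ Real.exp (-W x) * X i x :=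
              mul_le_mul_of_nonneg_right h4 (hX0 i x)
          _ = X i x * Real.exp (-W x) := mul_comm _ _
      have h6 : m * V < Real.exp (-2) * ∫ x in K, X i x := by
        have h7 := mul_lt_mul_of_pos_left (hXm i) (Real.exp_pos (-2))
        have h8 : Real.exp (-2) * (Real.exp 2 * m * V) = m * V := by
          rw [← mul_assoc, ← mul_assoc, ← Real.exp_add]
          norm_num
        rwa [h8] at h7
      have h9 : m * Z ≤ m * V := mul_le_mul_of_nonneg_left hZle hm.le
      linarith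
    have h5 := hl.eventually_const_lt h2
    filter_upwards [h5] with j hj using hj.le
  have hgpc : ∀ᶠ j in atTop, GPC (mu (U j)) L := by
    filter_upwards [hev1, hev2] with j hj1 hj2
    obtain ⟨C, hC⟩ := hUpot j
    have := hprob j
    exact hNGP ι v (U j) _ C c Dd X β Γ B m hnt hC this
      { c_cont := hc
        c_pos := hc0
        hess := hUH j
        β_pos := hβ0
        tight := htight
        D_gc := hDgc
        D_one := hD1
        X_gc := hXgc
        X_nonneg := hX0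
        low := hlow
        Γ_one := hΓ
        rev := fun i s y hs => hrev (U j) _ C hC i s y hs
        B_one := hB
        D_sq := hj1
        m_pos := hm
        m_le := hj2 }
  -- the limit
  intro f hf
  obtain ⟨f', hf'1, hf'c, hf'e⟩ := bd2_exists_cut hf R
  have c0 : Continuous f' := hf'1.continuous
  have cd : Continuous (fun x => fderiv ℝ f' x) := hf'1.continuous_fderiv one_ne_zero
  have c1 : Continuous (fun x => f' x ^ 2) := c0.pow 2
  have c2 : Continuous (fun x => ‖fderiv ℝ f' x‖ ^ 2) := cd.norm.pow 2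
  have s1 : HasCompactSupport (fun x => f' x ^ 2) := by
    apply hf'c.comp_left (g := fun y : ℝ => y ^ 2)
    norm_num
  have s2 : HasCompactSupport (fun x => ‖fderiv ℝ f' x‖ ^ 2) := by
    apply (hf'c.fderiv (𝕜 := ℝ)).comp_left (g := fun y : E →L[ℝ] ℝ => ‖y‖ ^ 2)
    simp
  have l0 := hlim _ c0 (bd2_growth_of_cpt c0 hf'c)
  have l1 := hlim _ c1 (bd2_growth_of_cpt c1 s1)
  have l2 := hlim _ c2 (bd2_growth_of_cpt c2 s2)
  have hle : (∫ x in K, f' x ^ 2 * Real.exp (-W x)) / Z -
      ((∫ x in K, f' x * Real.exp (-W x)) / Z) ^ 2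
      ≤ L * ((∫ x in K, ‖fderiv ℝ f' x‖ ^ 2 * Real.exp (-W x)) / Z) := by
    refine le_of_tendsto_of_tendsto (l1.sub (l0.pow 2)) (l2.const_mul L) ?_
    filter_upwards [hgpc] with j hj
    have := hprob j
    have h := hj f' hf'1 hf'c
    rw [probReal_univ, one_mul, one_mul] at h
    exact h
  have e0 : ∫ x in K, f' x = ∫ x in K, f x :=
    setIntegral_congr_fun hK.meas fun x hx => (hf'e x (hK.sub hx)).1
  have e1 : ∫ x in K, f' x ^ 2 = ∫ x in K, f x ^ 2 :=
    setIntegral_congr_fun hK.meas fun x hx => by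
      show f' x ^ 2 = f x ^ 2
      rw [(hf'e x (hK.sub hx)).1]
  have e2 : ∫ x in K, ‖fderiv ℝ f' x‖ ^ 2 = ∫ x in K, ‖fderiv ℝ f x‖ ^ 2 :=
    setIntegral_congr_fun hK.meas fun x hx => by
      show ‖fderiv ℝ f' x‖ ^ 2 = ‖fderiv ℝ f x‖ ^ 2
      rw [(hf'e x (hK.sub hx)).2]
  rw [← e0, ← e1, ← e2]
  set A1 := ∫ x in K, f' x ^ 2 * Real.exp (-W x) with hA1
  set B1 := ∫ x in K, f' x * Real.exp (-W x) with hB1
  set D1 := ∫ x in K, ‖fderiv ℝ f' x‖ ^ 2 * Real.exp (-W x) with hD1
  have hle2 : A1 - B1 ^ 2 / Z ≤ L * D1 := by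
    have h := mul_le_mul_of_nonneg_left hle hZ0.le
    have h1 : Z * (A1 / Z - (B1 / Z) ^ 2) = A1 - B1 ^ 2 / Z := by
      field_simp
    have h2 : Z * (L * (D1 / Z)) = L * D1 := by
      field_simp
    rw [h1, h2] at h
    exact h
  set a := B1 / Z with ha
  have i0 := hint _ c0
  have i1 := hint _ c1
  have i2 := hint _ c2
  have ic : ∀ b : ℝ, IntegrableOn (fun _ : E => b) K := fun b => hint _ continuous_const
  have x1 : ∫ x in K, (f' x - a) ^ 2 = (∫ x in K, f' x ^ 2) - 2 * a * (∫ x in K, f' x) + a ^ 2 * V := by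
    have h1 : (fun x => (f' x - a) ^ 2) = fun x => (f' x ^ 2 - 2 * a * f' x) + a ^ 2 := by
      ext x; ring
    have k0 : IntegrableOn (fun x => 2 * a * f' x) K := i0.const_mul _
    have k1 : IntegrableOn (fun x => f' x ^ 2 - 2 * a * f' x) K := i1.sub k0
    rw [h1, integral_add k1 (ic _), integral_sub i1 k0,
      integral_const_mul, setIntegral_const, smul_eq_mul, mul_comm V]
  have j0 : IntegrableOn (fun x => f' x * Real.exp (-W x)) K := hint _ (c0.mul hexpW)
  have j1 : IntegrableOn (fun x => f' x ^ 2 * Real.exp (-W x)) K := hint _ (c1.mul hexpW)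
  have jw := hint _ hexpW
  have x2 : ∫ x in K, (f' x - a) ^ 2 * Real.exp (-W x) = A1 - B1 ^ 2 / Z := by
    have h1 : (fun x => (f' x - a) ^ 2 * Real.exp (-W x)) = fun x =>
        (f' x ^ 2 * Real.exp (-W x) - 2 * a * (f' x * Real.exp (-W x))) +
          a ^ 2 * Real.exp (-W x) := by
      ext x; ring
    have k0 : IntegrableOn (fun x => 2 * a * (f' x * Real.exp (-W x))) K := j0.const_mul _
    have k1 : IntegrableOn (fun x => f' x ^ 2 * Real.exp (-W x) -
        2 * a * (f' x * Real.exp (-W x))) K := j1.sub k0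
    have k2 : IntegrableOn (fun x => a ^ 2 * Real.exp (-W x)) K := jw.const_mul _
    rw [h1, integral_add k1 k2,
      integral_sub j1 k0, integral_const_mul, integral_const_mul]
    rw [← hA1, ← hB1, ← hZ, ha]
    field_simp
    ring
  have cfa : Continuous fun x => (f' x - a) ^ 2 := (c0.sub continuous_const).pow 2
  have x3 : ∫ x in K, (f' x - a) ^ 2 ≤ Real.exp 2 * ∫ x in K, (f' x - a) ^ 2 * Real.exp (-W x) := by
    rw [← integral_const_mul]
    apply setIntegral_mono_on (hint _ cfa) ((hint _ (cfa.mul hexpW)).const_mul _) hK.meas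
    intro x hx
    have h1 : 1 ≤ Real.exp 2 * Real.exp (-W x) := by
      rw [← Real.exp_add]
      apply Real.one_le_exp
      have := hWM x hx
      linarith
    have h2 : 0 ≤ (f' x - a) ^ 2 := sq_nonneg _
    calc (f' x - a) ^ 2 = (f' x - a) ^ 2 * 1 := (mul_one _).symm
      _ ≤ (f' x - a) ^ 2 * (Real.exp 2 * Real.exp (-W x)) := mul_le_mul_of_nonneg_left h1 h2
      _ = Real.exp 2 * ((f' x - a) ^ 2 * Real.exp (-W x)) := by ring
  have x4 : D1 ≤ ∫ x in K, ‖fderiv ℝ f' x‖ ^ 2 := by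
    apply setIntegral_mono_on (hint _ (c2.mul hexpW)) i2 hK.meas
    intro x _
    exact mul_le_of_le_one_right (by positivity) (hexp1 x)
  rw [Real.sq_sqrt (by positivity)]
  set A := ∫ x in K, f' x ^ 2
  set B := ∫ x in K, f' x
  set D0 := ∫ x in K, ‖fderiv ℝ f' x‖ ^ 2
  have y1 : V * A - B ^ 2 ≤ V * (A - 2 * a * B + a ^ 2 * V) := by
    nlinarith [sq_nonneg (B - a * V)]
  have y2 : A - 2 * a * B + a ^ 2 * V ≤ Real.exp 2 * (L * D0) := by
    rw [← x1]
    refine x3.trans ?_
    rw [x2]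
    have h1 : L * D1 ≤ L * D0 := mul_le_mul_of_nonneg_left x4 hL.le
    exact mul_le_mul_of_nonneg_left (hle2.trans h1) (Real.exp_pos _).le
  calc V * A - B ^ 2 ≤ V * (A - 2 * a * B + a ^ 2 * V) := y1
    _ ≤ V * (Real.exp 2 * (L * D0)) := mul_le_mul_of_nonneg_left y2 hV0.le
    _ = Real.exp 2 * L * (V * D0) := by ring

end Pool.Agent.H19.KL
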